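import Mathlib
import Pool.Agent.Helper325.BorsukUlam

/-!
The Borsuk–Ulam theorem on a sphere and on a ball.
-/

set_option autoImplicit false

namespace Pool.Agent.H982R3.Disk

/-- Euclidean space. -/
abbrev E (n : ℕ) := EuclideanSpace ℝ (Fin n)

theorem bu_sphere {n : ℕ} (F : E (n + 1) → (Fin n → ℝ)) (hF : ContinuousOn F {x | ‖x‖ = 1})
    (hodd : ∀ x, ‖x‖ = 1 → F (-x) = - F x) (hne : ∀ x, ‖x‖ = 1 → F x ≠ 0) : False := by
  obtain ⟨G, hG⟩ : ∃ G : E (n + 1) → (Fin n → ℝ), G = fun x => ‖x‖ • F (‖x‖⁻¹ • x) := ⟨_, rfl⟩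
  have hunit : ∀ x : E (n + 1), x ≠ 0 → ‖‖x‖⁻¹ • x‖ = 1 := by
    intro x hx
    rw [norm_smul, norm_inv, norm_norm]
    exact inv_mul_cancel₀ (norm_ne_zero_iff.2 hx)
  have hGc : Continuous G := by
    rw [continuous_iff_continuousAt]
    intro x
    by_cases hx : x = 0
    · subst hx
      obtain ⟨C, hC⟩ := (isCompact_sphere (0 : E (n + 1)) 1).exists_bound_of_continuousOn
        (f := F) (by
          refine hF.mono ?_
          intro y hy
          simpa using hy)
      have hG0 : G 0 = 0 := by simp [hG]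
      rw [ContinuousAt, hG0]
      refine squeeze_zero_norm (a := fun y : E (n + 1) => ‖y‖ * C) ?_ ?_
      · intro y
        by_cases hy : y = 0
        · subst hy; simp [hG]
        · rw [hG]
          simp only [norm_smul, norm_norm]
          exact mul_le_mul_of_nonneg_left (hC _ (by simpa using hunit y hy)) (norm_nonneg _)
      · have h0 : Filter.Tendsto (fun y : E (n + 1) => ‖y‖ * C) (nhds 0)
            (nhds (‖(0 : E (n + 1))‖ * C)) :=
          (continuous_norm.mul continuous_const).tendsto 0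
        simpa using h0
    · have h1 : ContinuousOn (fun y : E (n + 1) => ‖y‖⁻¹ • y) {y | y ≠ 0} := by
        refine ContinuousOn.smul (ContinuousOn.inv₀ continuous_norm.continuousOn ?_) continuousOn_id
        intro y hy
        exact norm_ne_zero_iff.2 hy
      have h2 : ContinuousOn (fun y : E (n + 1) => F (‖y‖⁻¹ • y)) {y | y ≠ 0} :=
        hF.comp h1 (fun y hy => hunit y hy)
      have h3 : ContinuousOn G {y | y ≠ 0} := by
        rw [hG]
        exact continuous_norm.continuousOn.smul h2
      exact h3.continuousAt (isOpen_ne.mem_nhds hx)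
  have hGo : ∀ x, G (-x) = - G x := by
    intro x
    by_cases hx : x = 0
    · subst hx; simp [hG]
    · simp only [hG, norm_neg, smul_neg]
      rw [hodd _ (hunit x hx), smul_neg]
  have hGn : ∀ x, x ≠ 0 → G x ≠ 0 := by
    intro x hx
    simp only [hG]
    exact smul_ne_zero (norm_ne_zero_iff.2 hx) (hne _ (hunit x hx))
  obtain ⟨T, hT⟩ : ∃ T : (Fin (n + 1) → ℝ) → E (n + 1), T = fun v => WithLp.toLp 2 v := ⟨_, rfl⟩
  have hTc : Continuous T := by rw [hT]; exact PiLp.continuous_toLp 2 _
  obtain ⟨x, hx, hfx⟩ := Pool.Agent.Helper325.BorsukUlam.borsuk_ulam n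
    (fun v => G (T v)) (hGc.comp hTc)
    (by
      intro v
      have : T (-v) = - T v := by simp [hT]
      simp only [this, hGo])
  have hx0 : x ≠ 0 := by
    rintro rfl
    have : (∑ i : Fin (n + 1), |(0 : Fin (n + 1) → ℝ) i|) = 1 := hx
    simp at this
  have hTx : T x ≠ 0 := by
    intro h
    apply hx0
    have := congrArg (WithLp.ofLp) h
    simpa [hT] using this
  exact hGn _ hTx hfx

/-- forgetting the last coordinate. -/
noncomputable def pr (n : ℕ) (x : E (n + 1)) : E n := WithLp.toLp 2 fun i => x i.castSucc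

theorem pr_neg {n : ℕ} (x : E (n + 1)) : pr n (-x) = - pr n x := by
  ext i; simp [pr]

theorem pr_continuous (n : ℕ) : Continuous (pr n) := by
  unfold pr
  refine (PiLp.continuous_toLp 2 _).comp (continuous_pi fun i => ?_)
  fun_prop

theorem pr_norm {n : ℕ} (x : E (n + 1)) : ‖pr n x‖ ^ 2 + (x (Fin.last n)) ^ 2 = ‖x‖ ^ 2 := by
  rw [EuclideanSpace.norm_sq_eq, EuclideanSpace.norm_sq_eq, Fin.sum_univ_castSucc]
  simp [pr]

/-- no nowhere zero map from the `n`-ball to `ℝⁿ` is odd on the boundary. -/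
theorem bu_disk {n : ℕ} (A : E n → (Fin n → ℝ)) (hA : ContinuousOn A {x | ‖x‖ ≤ 1})
    (hodd : ∀ x, ‖x‖ = 1 → A (-x) = - A x) (hne : ∀ x, ‖x‖ ≤ 1 → A x ≠ 0) : False := by
  classical
  obtain ⟨F, hF⟩ : ∃ F : E (n + 1) → (Fin n → ℝ),
      F = fun x => if 0 ≤ x (Fin.last n) then A (pr n x) else - A (- pr n x) := ⟨_, rfl⟩
  have hle : ∀ x : E (n + 1), ‖x‖ = 1 → ‖pr n x‖ ≤ 1 := by
    intro x hx
    have := pr_norm x
    rw [hx] at this
    have h2 := sq_nonneg (x (Fin.last n))
    have h3 := norm_nonneg (pr n x)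
    nlinarith
  have h0 : ∀ x : E (n + 1), ‖x‖ = 1 → x (Fin.last n) = 0 → ‖pr n x‖ = 1 := by
    intro x hx h
    have := pr_norm x
    rw [hx, h] at this
    have h3 := norm_nonneg (pr n x)
    nlinarith
  have hx2 : ∀ x : E (n + 1), ‖x‖ = 1 → x (Fin.last n) ≤ 0 → F x = - A (- pr n x) := by
    intro x hx h
    rw [hF]
    simp only
    split_ifs with h1
    · have h2 : x (Fin.last n) = 0 := le_antisymm h h1
      rw [hodd _ (h0 x hx h2), neg_neg]
    · rfl
  have hlast : Continuous fun x : E (n + 1) => x (Fin.last n) := by fun_prop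
  refine bu_sphere F ?_ ?_ ?_
  · have hun : {x : E (n + 1) | ‖x‖ = 1} = ({x | ‖x‖ = 1} ∩ {x | 0 ≤ x (Fin.last n)}) ∪
        ({x | ‖x‖ = 1} ∩ {x | x (Fin.last n) ≤ 0}) := by
      ext x
      constructor
      · intro hx
        rcases le_total 0 (x (Fin.last n)) with h | h
        · exact Or.inl ⟨hx, h⟩
        · exact Or.inr ⟨hx, h⟩
      · rintro (h | h)
        · exact h.1
        · exact h.1
    have hcl : IsClosed {x : E (n + 1) | ‖x‖ = 1} := isClosed_eq continuous_norm continuous_const
    rw [hun]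
    refine ContinuousOn.union_of_isClosed ?_ ?_ (hcl.inter (isClosed_le continuous_const hlast))
      (hcl.inter (isClosed_le hlast continuous_const))
    · have h1 : ContinuousOn (fun x : E (n + 1) => A (pr n x))
          ({x | ‖x‖ = 1} ∩ {x | 0 ≤ x (Fin.last n)}) :=
        hA.comp (pr_continuous n).continuousOn (fun x hx => hle x hx.1)
      refine h1.congr fun x hx => ?_
      rw [hF]
      exact if_pos hx.2
    · have h1 : ContinuousOn (fun x : E (n + 1) => - A (- pr n x))
          ({x | ‖x‖ = 1} ∩ {x | x (Fin.last n) ≤ 0}) := by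
        refine ContinuousOn.neg ?_
        refine hA.comp (pr_continuous n).neg.continuousOn (fun x hx => ?_)
        show ‖- pr n x‖ ≤ 1
        rw [norm_neg]
        exact hle x hx.1
      refine h1.congr fun x hx => ?_
      exact hx2 x hx.1 hx.2
  · intro x hx
    have hnx : ‖-x‖ = 1 := by rw [norm_neg, hx]
    rcases le_total 0 (x (Fin.last n)) with h | h
    · have h1 : F x = A (pr n x) := by rw [hF]; exact if_pos h
      rw [h1, hx2 (-x) hnx (by simpa using h), pr_neg, neg_neg]
    · have h1 : F (-x) = A (pr n (-x)) := by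
        rw [hF]; exact if_pos (by simpa using h)
      rw [h1, hx2 x hx h, pr_neg, neg_neg]
  · intro x hx
    rcases le_total 0 (x (Fin.last n)) with h | h
    · have h1 : F x = A (pr n x) := by rw [hF]; exact if_pos h
      rw [h1]
      exact hne _ (hle x hx)
    · rw [hx2 x hx h]
      refine neg_ne_zero.2 (hne _ ?_)
      rw [norm_neg]
      exact hle x hx

end Pool.Agent.H982R3.Disk
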