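import Mathlib

/-!
The rank one `3 × 3` matrix attached to a symmetric involution of trace zero of `ℂ⁴`
(its coordinates in the tensor product of the selfdual and the antiselfdual two-forms).
-/

set_option autoImplicit false

namespace Pool.Agent.H982R3.Quat

/-- all `2 × 2` minors vanish. -/
def Rk (N : Matrix (Fin 3) (Fin 3) ℂ) : Prop :=
  ∀ i j k l, N i k * N l j = N i j * N l k

theorem Rk.of_minors (N : Matrix (Fin 3) (Fin 3) ℂ)
    (h : ∀ i l k j, i < l → k < j → N i k * N l j = N i j * N l k) : Rk N := by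
  intro i j k l
  rcases lt_trichotomy i l with h1 | h1 | h1
  · rcases lt_trichotomy k j with h2 | h2 | h2
    · exact h i l k j h1 h2
    · subst h2; ring
    · exact (h i l j k h1 h2).symm
  · subst h1; ring
  · rcases lt_trichotomy k j with h2 | h2 | h2
    · have := h l i k j h1 h2
      linear_combination -this
    · subst h2; ring
    · have := h l i j k h1 h2
      linear_combination this

/-- the coordinates of a traceless symmetric matrix in the basis `v ↦ eᵢ v eⱼ`. -/
noncomputable def NN (T : Matrix (Fin 4) (Fin 4) ℂ) : Matrix (Fin 3) (Fin 3) ℂ :=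
  !![(-T 0 0 - T 1 1 + T 2 2 + T 3 3) / 4, (T 0 3 - T 1 2) / 2, (-T 0 2 - T 1 3) / 2;
     (-T 0 3 - T 1 2) / 2, (-T 0 0 + T 1 1 - T 2 2 + T 3 3) / 4, (T 0 1 - T 2 3) / 2;
     (T 0 2 - T 1 3) / 2, (-T 0 1 - T 2 3) / 2, (-T 0 0 + T 1 1 + T 2 2 - T 3 3) / 4]

theorem NN_neg (T : Matrix (Fin 4) (Fin 4) ℂ) : NN (-T) = - NN T := by
  ext i j
  fin_cases i <;> fin_cases j <;> simp [NN] <;> ring

theorem NN_continuous : Continuous NN := by
  refine continuous_pi fun i => continuous_pi fun j => ?_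
  fin_cases i <;> fin_cases j <;> simp only [NN] <;> simp <;> fun_prop

theorem NN_facts (T : Matrix (Fin 4) (Fin 4) ℂ) (hs : T.transpose = T) (h2 : T * T = 1)
    (htr : T.trace = 0) : Rk (NN T) ∧ ∑ i, ∑ j, NN T i j * NN T i j = 1 := by
  have s10 : T 1 0 = T 0 1 := congrFun (congrFun hs 0) 1
  have s20 : T 2 0 = T 0 2 := congrFun (congrFun hs 0) 2
  have s30 : T 3 0 = T 0 3 := congrFun (congrFun hs 0) 3
  have s21 : T 2 1 = T 1 2 := congrFun (congrFun hs 1) 2
  have s31 : T 3 1 = T 1 3 := congrFun (congrFun hs 1) 3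
  have s32 : T 3 2 = T 2 3 := congrFun (congrFun hs 2) 3
  have e33 : T 3 3 = - T 0 0 - T 1 1 - T 2 2 := by
    simp only [Matrix.trace, Matrix.diag_apply, Fin.sum_univ_four] at htr
    linear_combination htr
  have h : ∀ i j, ∑ k, T i k * T k j = (1 : Matrix (Fin 4) (Fin 4) ℂ) i j := by
    intro i j
    rw [← h2, Matrix.mul_apply]
  have h00 := h 0 0
  have h01 := h 0 1
  have h02 := h 0 2
  have h03 := h 0 3
  have h11 := h 1 1
  have h12 := h 1 2
  have h13 := h 1 3
  have h22 := h 2 2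
  have h23 := h 2 3
  have h33 := h 3 3
  simp only [Fin.sum_univ_four, s10, s20, s30, s21, s31, s32, e33, Matrix.one_apply_eq] at h00 h11 h22 h33
  rw [Matrix.one_apply_ne (by decide)] at h01 h02 h03 h12 h13 h23
  simp only [Fin.sum_univ_four, s10, s20, s30, s21, s31, s32, e33] at h01 h02 h03 h12 h13 h23
  obtain ⟨N, hN⟩ : ∃ N, N = NN T := ⟨_, rfl⟩
  have n00 : N 0 0 = (-T 0 0 - T 1 1 + T 2 2 + T 3 3) / 4 := by rw [hN]; simp [NN]
  have n01 : N 0 1 = (T 0 3 - T 1 2) / 2 := by rw [hN]; simp [NN]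
  have n02 : N 0 2 = (-T 0 2 - T 1 3) / 2 := by rw [hN]; simp [NN]
  have n10 : N 1 0 = (-T 0 3 - T 1 2) / 2 := by rw [hN]; simp [NN]
  have n11 : N 1 1 = (-T 0 0 + T 1 1 - T 2 2 + T 3 3) / 4 := by rw [hN]; simp [NN]
  have n12 : N 1 2 = (T 0 1 - T 2 3) / 2 := by rw [hN]; simp [NN]
  have n20 : N 2 0 = (T 0 2 - T 1 3) / 2 := by rw [hN]; simp [NN]
  have n21 : N 2 1 = (-T 0 1 - T 2 3) / 2 := by rw [hN]; simp [NN]
  have n22 : N 2 2 = (-T 0 0 + T 1 1 + T 2 2 - T 3 3) / 4 := by rw [hN]; simp [NN]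
  rw [e33] at n00 n11 n22
  have m1 : N 0 0 * N 1 1 = N 0 1 * N 1 0 := by
    rw [n00, n11, n01, n10]
    linear_combination (1/8) * h00 - (1/8) * h11 - (1/8) * h22 + (1/8) * h33
  have m2 : N 0 0 * N 1 2 = N 0 2 * N 1 0 := by
    rw [n00, n12, n02, n10]
    linear_combination (-1/4) * h01 - (1/4) * h23
  have m3 : N 0 1 * N 1 2 = N 0 2 * N 1 1 := by
    rw [n01, n12, n02, n11]
    linear_combination (-1/4) * h02 + (1/4) * h13
  have m4 : N 0 0 * N 2 1 = N 0 1 * N 2 0 := by
    rw [n00, n21, n01, n20]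
    linear_combination (1/4) * h01 - (1/4) * h23
  have m5 : N 0 0 * N 2 2 = N 0 2 * N 2 0 := by
    rw [n00, n22, n02, n20]
    linear_combination (1/8) * h00 - (1/8) * h11 + (1/8) * h22 - (1/8) * h33
  have m6 : N 0 1 * N 2 2 = N 0 2 * N 2 1 := by
    rw [n01, n22, n02, n21]
    linear_combination (-1/4) * h03 - (1/4) * h12
  have m7 : N 1 0 * N 2 1 = N 1 1 * N 2 0 := by
    rw [n10, n21, n11, n20]
    linear_combination (1/4) * h02 + (1/4) * h13
  have m8 : N 1 0 * N 2 2 = N 1 2 * N 2 0 := by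
    rw [n10, n22, n12, n20]
    linear_combination (1/4) * h03 - (1/4) * h12
  have m9 : N 1 1 * N 2 2 = N 1 2 * N 2 1 := by
    rw [n11, n22, n12, n21]
    linear_combination (1/8) * h00 + (1/8) * h11 - (1/8) * h22 - (1/8) * h33
  rw [← hN]
  refine ⟨Rk.of_minors N ?_, ?_⟩
  · intro i l k j hil hkj
    fin_cases i <;> fin_cases l <;> first
      | exact absurd hil (by decide)
      | (fin_cases k <;> fin_cases j <;> first
          | exact absurd hkj (by decide)
          | exact m1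
          | exact m2
          | exact m3
          | exact m4
          | exact m5
          | exact m6
          | exact m7
          | exact m8
          | exact m9)
  · simp only [Fin.sum_univ_three]
    rw [n00, n01, n02, n10, n11, n12, n20, n21, n22]
    linear_combination (1/4) * h00 + (1/4) * h11 + (1/4) * h22 + (1/4) * h33

end Pool.Agent.H982R3.Quat
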