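import Mathlib
import Pool.Agent.H982R3.Quat

/-!
Lifting a homotopy of rank one symmetric matrices of trace one to vectors.
-/

set_option autoImplicit false

namespace Pool.Agent.H982R3.Lift

open Pool.Agent.H982R3.Quat

/-- principal square root. -/
noncomputable def sq (z : ℂ) : ℂ := Complex.exp (Complex.log z / 2)

theorem sq_mul (z : ℂ) (hz : z ≠ 0) : sq z * sq z = z := by
  unfold sq
  rw [← Complex.exp_add, add_halves, Complex.exp_log hz]

theorem sq_ne (z : ℂ) : sq z ≠ 0 := Complex.exp_ne_zero _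

theorem sq_continuousAt (z : ℂ) (hz : z ∈ Complex.slitPlane) : ContinuousAt sq z := by
  unfold sq
  exact Complex.continuous_exp.continuousAt.comp ((continuousAt_clog hz).div_const 2)

theorem base_lift (M : Matrix (Fin 3) (Fin 3) ℂ) (hs : ∀ i j, M j i = M i j) (hr : Rk M)
    (htr : ∑ i, M i i = 1) : ∃ α : Fin 3 → ℂ, ∀ i j, α i * α j = M i j := by
  obtain ⟨a, ha⟩ : ∃ a, M a a ≠ 0 := by
    by_contra hcon
    push Not at hcon
    rw [Finset.sum_eq_zero (fun i _ => hcon i)] at htr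
    exact zero_ne_one htr
  refine ⟨fun i => M i a / sq (M a a), fun i j => ?_⟩
  have h1 : M i a * M a j = M i j * M a a := hr i j a a
  have h2 := sq_mul _ ha
  have h3 := sq_ne (M a a)
  rw [div_mul_div_comm, h2, hs a j, h1, mul_div_assoc, div_self ha, mul_one]

theorem cc_self (M : Matrix (Fin 3) (Fin 3) ℂ) (hs : ∀ i j, M j i = M i j) (hr : Rk M)
    (htr : ∑ i, M i i = 1) : ∑ k, ∑ l, M k l * M k l = 1 := by
  have h1 : ∀ k l, M k l * M k l = M k k * M l l := by
    intro k l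
    have := hr k k l l
    rw [← this, hs k l]
  simp only [h1]
  rw [← Finset.sum_mul_sum, htr, one_mul]

theorem step_lift (A B : Matrix (Fin 3) (Fin 3) ℂ) (hs : ∀ i j, B j i = B i j) (hr : Rk B)
    (α : Fin 3 → ℂ) (hα : ∀ i j, α i * α j = A i j) (c : ℂ)
    (hc : c = ∑ k, ∑ l, B k l * A k l) (hc0 : c ≠ 0) (i j : Fin 3) :
    ((∑ l, B i l * α l) / sq c) * ((∑ l, B j l * α l) / sq c) = B i j := by
  rw [div_mul_div_comm, sq_mul c hc0, Finset.sum_mul_sum]
  have h1 : ∀ l m, B i l * α l * (B j m * α m) = B i j * (B m l * A m l) := by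
    intro l m
    have h2 : B i l * B m j = B i j * B m l := hr i j l m
    rw [hs j m] at h2
    have h3 : A m l = α l * α m := by rw [← hα, mul_comm]
    rw [h3]
    linear_combination α l * α m * h2
  simp only [h1]
  have h4 : ∑ l, ∑ m, B i j * (B m l * A m l) = B i j * c := by
    rw [hc, Finset.sum_comm, Finset.mul_sum]
    refine Finset.sum_congr rfl fun k _ => ?_
    rw [Finset.mul_sum]
  rw [h4, mul_div_assoc, div_self hc0, mul_one]

/-- lifting a homotopy of rank one symmetric matrices. -/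
theorem exists_lift {K : Type*} [TopologicalSpace K] [CompactSpace K]
    (M : ℝ → K → Matrix (Fin 3) (Fin 3) ℂ) (hM : Continuous fun p : ℝ × K => M p.1 p.2)
    (hs : ∀ t x i j, M t x j i = M t x i j) (hr : ∀ t x, Rk (M t x))
    (htr : ∀ t x, ∑ i, M t x i i = 1) (M₀ : Matrix (Fin 3) (Fin 3) ℂ) (h0 : ∀ x, M 0 x = M₀) :
    ∃ α : K → Fin 3 → ℂ, Continuous α ∧ ∀ x i j, α x i * α x j = M 1 x i j := by
  rcases isEmpty_or_nonempty K with hK | ⟨⟨x₁⟩⟩
  · exact ⟨fun _ _ => 0, continuous_const, fun x => (hK.false x).elim⟩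
  obtain ⟨c, hc⟩ : ∃ c : ℝ → ℝ → K → ℂ, c = fun t s x => ∑ k, ∑ l, M t x k l * M s x k l :=
    ⟨_, rfl⟩
  have hcd : ∀ t s x, c t s x = ∑ k, ∑ l, M t x k l * M s x k l := by
    intro t s x; rw [hc]
  have hct : ∀ t x, c t t x = 1 := by
    intro t x
    rw [hcd]
    exact cc_self _ (hs t x) (hr t x) (htr t x)
  have hMe : ∀ i j, Continuous fun p : ℝ × K => M p.1 p.2 i j := fun i j => hM.matrix_elem i j
  have hcc : Continuous fun p : ℝ × ℝ × K => c p.1 p.2.1 p.2.2 := by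
    rw [hc]
    refine continuous_finsetSum _ fun i _ => continuous_finsetSum _ fun j _ => ?_
    exact ((hMe i j).comp (continuous_fst.prodMk (continuous_snd.comp continuous_snd))).mul
      ((hMe i j).comp ((continuous_fst.comp continuous_snd).prodMk
        (continuous_snd.comp continuous_snd)))
  obtain ⟨δ, hδ, hδ'⟩ : ∃ δ : ℝ, 0 < δ ∧ ∀ t ∈ Set.Icc (0 : ℝ) 1, ∀ s ∈ Set.Icc (0 : ℝ) 1,
      ∀ x, |t - s| < δ → 1 / 2 < (c t s x).re := by
    have hD : IsCompact ((Set.Icc (0 : ℝ) 1 ×ˢ (Set.Icc (0 : ℝ) 1 ×ˢ (Set.univ : Set K))) ∩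
        {p : ℝ × ℝ × K | (c p.1 p.2.1 p.2.2).re ≤ 1 / 2}) :=
      (isCompact_Icc.prod (isCompact_Icc.prod isCompact_univ)).inter_right
        (isClosed_le (Complex.continuous_re.comp hcc) continuous_const)
    rcases Set.eq_empty_or_nonempty ((Set.Icc (0 : ℝ) 1 ×ˢ (Set.Icc (0 : ℝ) 1 ×ˢ
        (Set.univ : Set K))) ∩ {p : ℝ × ℝ × K | (c p.1 p.2.1 p.2.2).re ≤ 1 / 2}) with he | hne
    · refine ⟨1, one_pos, fun t ht s hs' x _ => ?_⟩
      by_contra hdet
      have : ((t, s, x) : ℝ × ℝ × K) ∈ ((Set.Icc (0 : ℝ) 1 ×ˢ (Set.Icc (0 : ℝ) 1 ×ˢ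
        (Set.univ : Set K))) ∩ {p : ℝ × ℝ × K | (c p.1 p.2.1 p.2.2).re ≤ 1 / 2}) :=
        ⟨⟨ht, hs', Set.mem_univ _⟩, not_lt.1 hdet⟩
      rw [he] at this
      exact this
    · have hfc : Continuous fun p : ℝ × ℝ × K => |p.1 - p.2.1| :=
        (continuous_fst.sub (continuous_fst.comp continuous_snd)).abs
      obtain ⟨q, hq, hmin⟩ := hD.exists_isMinOn hne hfc.continuousOn
      refine ⟨|q.1 - q.2.1|, abs_pos.2 fun h1 => ?_, fun t ht s hs' x hts => ?_⟩
      · have h2 : q.1 = q.2.1 := sub_eq_zero.1 h1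
        have h3 : (c q.1 q.2.1 q.2.2).re ≤ 1 / 2 := hq.2
        rw [← h2, hct, Complex.one_re] at h3
        norm_num at h3
      · by_contra hdet
        have h1 : |q.1 - q.2.1| ≤ |t - s| :=
          hmin (show ((t, s, x) : ℝ × ℝ × K) ∈ _ from ⟨⟨ht, hs', Set.mem_univ _⟩, not_lt.1 hdet⟩)
        linarith
  obtain ⟨n, hn⟩ := exists_nat_one_div_lt hδ
  have hm : (0 : ℝ) < (n : ℝ) + 1 := by positivity
  have key : ∀ k : ℕ, k ≤ n + 1 → ∃ α : K → Fin 3 → ℂ, Continuous α ∧
      ∀ x i j, α x i * α x j = M ((k : ℝ) / ((n : ℝ) + 1)) x i j := by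
    intro k
    induction k with
    | zero =>
      intro _
      have e0 := h0 x₁
      obtain ⟨α₀, hα₀⟩ := base_lift M₀ (by rw [← e0]; exact hs 0 x₁) (by rw [← e0]; exact hr 0 x₁)
        (by rw [← e0]; exact htr 0 x₁)
      refine ⟨fun _ => α₀, continuous_const, fun x i j => ?_⟩
      rw [Nat.cast_zero, zero_div, h0, hα₀]
    | succ k ih =>
      intro hk
      obtain ⟨α, hα, hcomm⟩ := ih (by omega)
      have hk1 : ((k + 1 : ℕ) : ℝ) ≤ (n : ℝ) + 1 := by exact_mod_cast hk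
      have hk2 : (k : ℝ) ≤ (n : ℝ) + 1 := by push_cast at hk1; linarith
      have ht : ((k + 1 : ℕ) : ℝ) / ((n : ℝ) + 1) ∈ Set.Icc (0 : ℝ) 1 :=
        ⟨by positivity, (div_le_one hm).2 hk1⟩
      have hs' : (k : ℝ) / ((n : ℝ) + 1) ∈ Set.Icc (0 : ℝ) 1 :=
        ⟨by positivity, (div_le_one hm).2 hk2⟩
      have hts : |((k + 1 : ℕ) : ℝ) / ((n : ℝ) + 1) - (k : ℝ) / ((n : ℝ) + 1)| < δ := by
        have h1 : ((k + 1 : ℕ) : ℝ) / ((n : ℝ) + 1) - (k : ℝ) / ((n : ℝ) + 1) =
            1 / ((n : ℝ) + 1) := by push_cast; ring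
        rw [h1, abs_of_pos (by positivity)]
        exact hn
      obtain ⟨t, hte⟩ : ∃ t : ℝ, t = ((k + 1 : ℕ) : ℝ) / ((n : ℝ) + 1) := ⟨_, rfl⟩
      obtain ⟨s, hse⟩ : ∃ s : ℝ, s = (k : ℝ) / ((n : ℝ) + 1) := ⟨_, rfl⟩
      rw [← hte] at ht hts ⊢
      rw [← hse] at hs' hts hcomm
      have hpos : ∀ x, 0 < (c t s x).re := by
        intro x
        have := hδ' t ht s hs' x hts
        linarith
      have hcx : Continuous fun x => c t s x :=
        hcc.comp (continuous_const.prodMk (continuous_const.prodMk continuous_id))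
      have hMx : ∀ i j, Continuous fun x => M t x i j := fun i j =>
        (hMe i j).comp (continuous_const.prodMk continuous_id)
      have hαe : ∀ l, Continuous fun x => α x l := fun l => (continuous_apply l).comp hα
      refine ⟨fun x i => (∑ l, M t x i l * α x l) / sq (c t s x), ?_, fun x i j => ?_⟩
      · refine continuous_pi fun i => ?_
        refine Continuous.div (continuous_finsetSum _ fun l _ => (hMx i l).mul (hαe l)) ?_
          (fun x => sq_ne _)
        rw [continuous_iff_continuousAt]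
        intro x
        exact (sq_continuousAt _ (Complex.mem_slitPlane_iff.2 (Or.inl (hpos x)))).comp
          hcx.continuousAt
      · refine step_lift (M s x) (M t x) (hs t x) (hr t x) (α x) (hcomm x) (c t s x) (hcd t s x)
          ?_ i j
        intro h
        have := hpos x
        rw [h, Complex.zero_re] at this
        exact lt_irrefl _ this
  obtain ⟨α, hα, hcomm⟩ := key (n + 1) le_rfl
  refine ⟨α, hα, fun x i j => ?_⟩
  have h1 : (((n + 1 : ℕ) : ℝ)) / ((n : ℝ) + 1) = 1 := by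
    push_cast
    exact div_self hm.ne'
  rw [hcomm x, h1]

end Pool.Agent.H982R3.Lift
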