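import Mathlib
import Pool.Agent.Helper672.Lv.N5
import Pool.Agent.H982R3.Quat
import Pool.Agent.H982R3.Lift
import Pool.Agent.H982R3.Disk

/-!
There is no continuous family of symmetric idempotents of rank two of `ℂ⁴` over the 3-sphere
which is exchanged with the complementary family by the antipodal map.
-/

set_option autoImplicit false

namespace Pool.Agent.H982R3.Proj

open Pool.Agent.Helper672.Lv Pool.Agent.H982R3.Quat Pool.Agent.H982R3.Disk

theorem Ec_transpose {N : ℕ} (ρ : ℝ) (R : Matrix (Fin N) (Fin N) ℂ) :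
    (Ec ρ R).transpose = Ec ρ R.transpose := by
  ext i j
  rw [Matrix.transpose_apply]
  simp only [Ec]
  congr 1
  congr 1
  funext z
  have h1 : z • (1 : Matrix (Fin N) (Fin N) ℂ) - R.transpose =
      (z • (1 : Matrix (Fin N) (Fin N) ℂ) - R).transpose := by
    rw [Matrix.transpose_sub, Matrix.transpose_smul, Matrix.transpose_one]
  rw [h1, ← Matrix.transpose_nonsing_inv, Matrix.transpose_apply]

/-- spectral projections of a compact family of symmetric matrices without real eigenvalues. -/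
theorem exists_family_proj_sym {X : Type*} [TopologicalSpace X] [CompactSpace X] {N : ℕ}
    (R : X → Matrix (Fin N) (Fin N) ℂ) (hR : Continuous R)
    (hno : ∀ x (t : ℝ), (R x - (t : ℂ) • (1 : Matrix (Fin N) (Fin N) ℂ)).det ≠ 0)
    (hsym : ∀ x, (R x).transpose = R x) :
    ∃ P : X → Matrix (Fin N) (Fin N) ℂ, Continuous P ∧ (∀ x, P x * P x = P x) ∧
      (∀ x, (P x).transpose = P x) ∧ ∀ x y, R y = - R x → P y = 1 - P x := by
  obtain ⟨ρ, hρ, hb⟩ := J27085.exists_radius R hR hno
  have hneg : ∀ (A : Matrix (Fin N) (Fin N) ℂ) (z : ℂ),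
      (z • (1 : Matrix (Fin N) (Fin N) ℂ) - A).det = 0 →
      (A - z • (1 : Matrix (Fin N) (Fin N) ℂ)).det = 0 := by
    intro A z h
    have e : A - z • (1 : Matrix (Fin N) (Fin N) ℂ) =
        -(z • (1 : Matrix (Fin N) (Fin N) ℂ) - A) := by abel
    rw [e, Matrix.det_neg, h, mul_zero]
  have hc : ∀ x, ∀ z : ℂ, ‖z - (ρ : ℂ) * Complex.I‖ = ρ →
      (z • (1 : Matrix (Fin N) (Fin N) ℂ) - R x).det ≠ 0 := by
    intro x z hz h
    have h1 := hb x z (hneg _ _ h)
    have h2 := normSq_sub_rho ρ z
    rw [hz] at h2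
    have h3 : ‖z‖ ^ 2 = 2 * ρ * z.im := by linarith
    have h4 : 0 ≤ z.im := by
      by_contra h5
      push Not at h5
      have : 2 * ρ * z.im < 0 := by nlinarith
      have := sq_nonneg ‖z‖
      linarith
    rw [abs_of_nonneg h4] at h1
    linarith
  have hin : ∀ x (μ : ℂ) (k : ℕ) (u : Fin N → ℂ),
      ((R x - μ • (1 : Matrix (Fin N) (Fin N) ℂ)) ^ k).mulVec u = 0 →
      (R x - μ • (1 : Matrix (Fin N) (Fin N) ℂ)).det = 0 → 0 < μ.im →
      (Ec ρ (R x)).mulVec u = u := by
    intro x μ k u hu hd hi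
    refine J27086.Ec_inside hρ (R x) (hc x) μ ?_ k u hu
    have h1 := hb x μ hd
    have h2 := normSq_sub_rho ρ μ
    rw [abs_of_pos hi] at h1
    have h3 : ‖μ - (ρ : ℂ) * Complex.I‖ ^ 2 < ρ ^ 2 := by linarith
    exact lt_of_pow_lt_pow_left₀ 2 hρ.le h3
  have hout : ∀ x (μ : ℂ) (k : ℕ) (u : Fin N → ℂ),
      ((R x - μ • (1 : Matrix (Fin N) (Fin N) ℂ)) ^ k).mulVec u = 0 →
      (R x - μ • (1 : Matrix (Fin N) (Fin N) ℂ)).det = 0 → μ.im < 0 →
      (Ec ρ (R x)).mulVec u = 0 := by
    intro x μ k u hu hd hi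
    refine J27086.Ec_outside hρ (R x) (hc x) μ ?_ k u hu
    have h2 := normSq_sub_rho ρ μ
    have h4 : 0 < -(2 * ρ * μ.im) := by nlinarith
    have h3 : ρ ^ 2 < ‖μ - (ρ : ℂ) * Complex.I‖ ^ 2 := by
      have := sq_nonneg ‖μ‖
      linarith
    exact lt_of_pow_lt_pow_left₀ 2 (norm_nonneg _) h3
  have him : ∀ x (μ : ℂ), (R x - μ • (1 : Matrix (Fin N) (Fin N) ℂ)).det = 0 →
      0 < μ.im ∨ μ.im < 0 := by
    intro x μ hd
    rcases lt_trichotomy μ.im 0 with h | h | h
    · exact Or.inr h
    · exfalso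
      apply hno x μ.re
      have e : ((μ.re : ℝ) : ℂ) = μ := by
        apply Complex.ext
        · simp
        · simp [h]
      rw [e]; exact hd
    · exact Or.inl h
  refine ⟨fun x => Ec ρ (R x), J27087.Ec_continuous hρ R hR hc, ?_, ?_, ?_⟩
  · intro x
    refine J27088.ext_genEigen (R x) _ _ ?_
    intro μ k u hu hd
    rw [← Matrix.mulVec_mulVec]
    rcases him x μ hd with h | h
    · rw [hin x μ k u hu hd h, hin x μ k u hu hd h]
    · rw [hout x μ k u hu hd h, Matrix.mulVec_zero]
  · intro x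
    show (Ec ρ (R x)).transpose = Ec ρ (R x)
    rw [Ec_transpose, hsym]
  · intro x y hxy
    refine J27088.ext_genEigen (R x) _ _ ?_
    intro μ k u hu hd
    have e : R y - (-μ) • (1 : Matrix (Fin N) (Fin N) ℂ) =
        -(R x - μ • (1 : Matrix (Fin N) (Fin N) ℂ)) := by
      rw [hxy, neg_smul]; abel
    have hu' : ((R y - (-μ) • (1 : Matrix (Fin N) (Fin N) ℂ)) ^ k).mulVec u = 0 := by
      rw [e, neg_pow, ← Matrix.mulVec_mulVec, hu, Matrix.mulVec_zero]
    have hd' : (R y - (-μ) • (1 : Matrix (Fin N) (Fin N) ℂ)).det = 0 := by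
      rw [e, Matrix.det_neg, hd, mul_zero]
    rw [Matrix.sub_mulVec, Matrix.one_mulVec]
    rcases him x μ hd with h | h
    · rw [hin x μ k u hu hd h, hout y (-μ) k u hu' hd' (by simpa using h), sub_self]
    · rw [hout x μ k u hu hd h, hin y (-μ) k u hu' hd' (by simpa using h), sub_zero]

/-- the trace of an idempotent matrix is a natural number. -/
theorem trace_idem {N : ℕ} (P : Matrix (Fin N) (Fin N) ℂ) (h : P * P = P) :
    ∃ k : ℕ, P.trace = k := by
  have h1 : IsIdempotentElem (Matrix.toLin' P) := by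
    show Matrix.toLin' P * Matrix.toLin' P = Matrix.toLin' P
    rw [Module.End.mul_eq_comp, ← Matrix.toLin'_mul, h]
  have h2 := LinearMap.IsIdempotentElem.isProj_range _ h1
  have h3 := h2.trace
  rw [Matrix.trace_toLin'_eq] at h3
  exact ⟨_, h3⟩

/-- the rank one matrix `N Nᵀ`. -/
def RR (N : Matrix (Fin 3) (Fin 3) ℂ) : Matrix (Fin 3) (Fin 3) ℂ :=
  fun i j => ∑ k, N i k * N j k

theorem RR_sym (N : Matrix (Fin 3) (Fin 3) ℂ) (i j : Fin 3) : RR N j i = RR N i j := by
  unfold RR
  exact Finset.sum_congr rfl fun k _ => mul_comm _ _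

theorem RR_rk (N : Matrix (Fin 3) (Fin 3) ℂ) (h : Rk N) : Rk (RR N) := by
  intro i j k l
  simp only [RR]
  rw [Finset.sum_mul_sum, Finset.sum_mul_sum]
  refine Finset.sum_congr rfl fun p _ => Finset.sum_congr rfl fun q _ => ?_
  have h1 : N k p * N j q = N k q * N j p := h k q p j
  linear_combination N i p * N l q * h1

theorem RR_neg (N : Matrix (Fin 3) (Fin 3) ℂ) : RR (-N) = RR N := by
  funext i j
  simp [RR]

theorem Rk.transpose {N : Matrix (Fin 3) (Fin 3) ℂ} (h : Rk N) : Rk N.transpose := by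
  intro i j k l
  have := h k l i j
  simp only [Matrix.transpose_apply]
  linear_combination this

theorem RR_continuous : Continuous RR := by
  refine continuous_pi fun i => continuous_pi fun j => ?_
  unfold RR
  fun_prop

/-- a rank one matrix of norm one in terms of the two lifts. -/
theorem lift_two (N : Matrix (Fin 3) (Fin 3) ℂ) (h : Rk N) (hn : ∑ i, ∑ j, N i j * N i j = 1)
    (a b : Fin 3 → ℂ) (ha : ∀ i j, a i * a j = RR N i j) (hb : ∀ i j, b i * b j = RR N.transpose i j) :
    ((∑ i, ∑ j, a i * N i j * b j = 1) ∨ (∑ i, ∑ j, a i * N i j * b j = -1)) ∧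
    ∀ i j, N i j = (∑ k, ∑ l, a k * N k l * b l) * a i * b j := by
  have ha1 : ∑ i, a i * a i = 1 := by
    simp only [ha, RR]
    exact hn
  have hb1 : ∑ i, b i * b i = 1 := by
    simp only [hb, RR, Matrix.transpose_apply]
    rw [Finset.sum_comm]
    exact hn
  have key : ∀ i j, N i j = (∑ k, ∑ l, a k * N k l * b l) * a i * b j := by
    intro i j
    have h1 : (∑ k, ∑ l, a k * N k l * b l) * a i * b j =
        ∑ k, ∑ l, N i j * ((N k l * N k l) * 1) := by
      rw [Finset.sum_mul, Finset.sum_mul]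
      refine Finset.sum_congr rfl fun k _ => ?_
      rw [Finset.sum_mul, Finset.sum_mul]
      have h2 : ∀ l, a k * N k l * b l * a i * b j =
          ∑ p, ∑ q, N i j * ((N k p * N k p) * (N q l * N q l)) := by
        intro l
        have h3 : a k * N k l * b l * a i * b j = N k l * ((a k * a i) * (b l * b j)) := by ring
        rw [h3, ha, hb]
        simp only [RR, Matrix.transpose_apply]
        rw [Finset.sum_mul_sum, Finset.mul_sum]
        refine Finset.sum_congr rfl fun p _ => ?_
        rw [Finset.mul_sum]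
        refine Finset.sum_congr rfl fun q _ => ?_
        -- N k l * ((N k p * N i p) * (N q l * N q j)) = N i j * (N k p^2 * N q l^2)
        have e1 : N i p * N q j = N i j * N q p := h i j p q
        have e2 : N k l * N q p = N k p * N q l := h k p l q
        linear_combination N k l * N k p * N q l * e1 + N i j * N k p * N q l * e2
      simp only [h2]
      have h4 : ∀ p, ∑ l, ∑ q, N i j * ((N k p * N k p) * (N q l * N q l)) =
          N i j * ((N k p * N k p) * 1) := by
        intro p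
        rw [← hn, Finset.sum_comm, Finset.mul_sum, Finset.mul_sum]
        refine Finset.sum_congr rfl fun q _ => ?_
        rw [Finset.mul_sum, Finset.mul_sum]
      rw [Finset.sum_comm]
      exact Finset.sum_congr rfl fun p _ => h4 p
    rw [h1]
    simp only [mul_one]
    have h5 : ∑ k, ∑ l, N i j * (N k l * N k l) = N i j * ∑ k, ∑ l, N k l * N k l := by
      rw [Finset.mul_sum]
      refine Finset.sum_congr rfl fun k _ => ?_
      rw [Finset.mul_sum]
    rw [h5, hn, mul_one]
  refine ⟨?_, key⟩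
  obtain ⟨c, hc⟩ : ∃ c : ℂ, c = ∑ k, ∑ l, a k * N k l * b l := ⟨_, rfl⟩
  rw [← hc] at key ⊢
  have h6 : c * c = 1 := by
    rw [← hn]
    have h7 : ∀ i j, N i j * N i j = (c * c) * ((a i * a i) * (b j * b j)) := by
      intro i j
      rw [key i j]; ring
    simp only [h7]
    have h8 : ∑ i, ∑ j, c * c * (a i * a i * (b j * b j)) =
        c * c * ((∑ i, a i * a i) * ∑ j, b j * b j) := by
      rw [Finset.sum_mul_sum, Finset.mul_sum]
      refine Finset.sum_congr rfl fun i _ => ?_
      rw [Finset.mul_sum]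
    rw [h8, ha1, hb1, mul_one, mul_one]
  exact mul_self_eq_one_iff.1 h6

theorem sign_facts (a a' : Fin 3 → ℂ) (h1 : ∑ i, a i * a i = 1)
    (h : ∀ i j, a' i * a' j = a i * a j) :
    ((∑ i, a' i * a i = 1) ∨ (∑ i, a' i * a i = -1)) ∧ ∀ i, a' i = (∑ j, a' j * a j) * a i := by
  have h1' : ∑ i, a' i * a' i = 1 := by simp only [h]; exact h1
  have key : ∀ i, a' i = (∑ j, a' j * a j) * a i := by
    intro i
    rw [Finset.sum_mul]
    have h2 : ∀ j, a' j * a j * a i = a' j * a' j * a' i := by
      intro j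
      have := h j i
      linear_combination -a' j * this
    simp only [h2]
    rw [← Finset.sum_mul, h1', one_mul]
  refine ⟨?_, key⟩
  obtain ⟨c, hc⟩ : ∃ c : ℂ, c = ∑ j, a' j * a j := ⟨_, rfl⟩
  rw [← hc] at key ⊢
  have h3 : c * c = 1 := by
    rw [← h1']
    have h4 : ∀ i, a' i * a' i = c * c * (a i * a i) := by
      intro i
      rw [key i]; ring
    simp only [h4]
    rw [← Finset.mul_sum, h1, mul_one]
  exact mul_self_eq_one_iff.1 h3

/-- a continuous function with values `± 1` on a connected space is constant. -/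
theorem const_sign {X : Type*} [TopologicalSpace X] [PreconnectedSpace X] (f : X → ℂ)
    (hf : Continuous f) (h : ∀ x, f x = 1 ∨ f x = -1) : (∀ x, f x = 1) ∨ (∀ x, f x = -1) := by
  by_contra hcon
  push Not at hcon
  obtain ⟨⟨x, hx⟩, ⟨y, hy⟩⟩ := hcon
  have hx' := (h x).resolve_left hx
  have hy' := (h y).resolve_right hy
  obtain ⟨z, hz⟩ := mem_range_of_exists_le_of_exists_ge (Complex.continuous_re.comp hf)
    (c := (0 : ℝ)) ⟨x, by simp [hx']⟩ ⟨y, by simp [hy']⟩
  rcases h z with h1 | h1
  · simp [h1] at hz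
  · simp [h1] at hz

/-- the closed ball. -/
abbrev D := Metric.closedBall (0 : E 3) 1

/-- the 3-sphere. -/
abbrev S := Metric.sphere (0 : E 4) 1

theorem no_odd_vec (α : D → Fin 3 → ℂ) (hc : Continuous α) (h1 : ∀ y, ∑ i, α y i * α y i = 1)
    (hodd : ∀ y y' : D, ‖(y : E 3)‖ = 1 → (y' : E 3) = - y → α y' = - α y) : False := by
  classical
  obtain ⟨A, hA⟩ : ∃ A : E 3 → (Fin 3 → ℝ), A = fun y =>
      if h : ‖y‖ ≤ 1 then (fun i => (α ⟨y, by simpa using h⟩ i).re) else 0 := ⟨_, rfl⟩
  have hAe : ∀ y : D, A y = fun i => (α y i).re := by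
    intro y
    have hy : ‖(y : E 3)‖ ≤ 1 := mem_closedBall_zero_iff.1 y.2
    rw [hA]
    simp only [dif_pos hy]
  refine bu_disk A ?_ ?_ ?_
  · have h2 : {x : E 3 | ‖x‖ ≤ 1} = Metric.closedBall (0 : E 3) 1 := by
      ext x; simp
    rw [h2, continuousOn_iff_continuous_domRestrict]
    have h3 : Set.domRestrict (Metric.closedBall (0 : E 3) 1) A = fun y : D => fun i => (α y i).re := by
      funext y
      exact hAe y
    rw [h3]
    refine continuous_pi fun i => ?_
    exact Complex.continuous_re.comp ((continuous_apply i).comp hc)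
  · intro x hx
    have hx1 : x ∈ Metric.closedBall (0 : E 3) 1 := by simp [hx]
    have hx2 : -x ∈ Metric.closedBall (0 : E 3) 1 := by simp [hx]
    have e1 := hAe ⟨x, hx1⟩
    have e2 := hAe ⟨-x, hx2⟩
    have e3 := hodd ⟨x, hx1⟩ ⟨-x, hx2⟩ hx rfl
    simp only at e1 e2
    rw [e1, e2, e3]
    funext i
    simp
  · intro x hx h0
    have hx1 : x ∈ Metric.closedBall (0 : E 3) 1 := by simpa using hx
    have e1 := hAe ⟨x, hx1⟩
    simp only at e1
    rw [e1] at h0
    have e2 := congrArg Complex.re (h1 ⟨x, hx1⟩)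
    rw [Complex.re_sum, Complex.one_re] at e2
    have e3 : ∀ i, (α ⟨x, hx1⟩ i * α ⟨x, hx1⟩ i).re ≤ 0 := by
      intro i
      have h4 : (α ⟨x, hx1⟩ i).re = 0 := congrFun h0 i
      rw [Complex.mul_re, h4]
      nlinarith [sq_nonneg (α ⟨x, hx1⟩ i).im]
    have e4 := Finset.sum_nonpos (fun i (_ : i ∈ Finset.univ) => e3 i)
    linarith

/-- the point of the upper half of the 3-sphere over a point of the ball. -/
noncomputable def U (y : E 3) : E 4 :=
  WithLp.toLp 2 (Fin.snoc (α := fun _ => ℝ) (fun i => y i) (Real.sqrt (1 - ‖y‖ ^ 2)))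

theorem U_last (y : E 3) : U y (Fin.last 3) = Real.sqrt (1 - ‖y‖ ^ 2) := by
  change Fin.snoc (α := fun _ => ℝ) (fun i : Fin 3 => y i) (Real.sqrt (1 - ‖y‖ ^ 2))
    (Fin.last 3) = _
  rw [Fin.snoc_last]

theorem U_cast (y : E 3) (j : Fin 3) : U y j.castSucc = y j := by
  change Fin.snoc (α := fun _ => ℝ) (fun i : Fin 3 => y i) _ j.castSucc = _
  rw [Fin.snoc_castSucc]

theorem U_norm (y : E 3) (hy : ‖y‖ ≤ 1) : ‖U y‖ = 1 := by
  have h1 : ‖U y‖ ^ 2 = 1 := by
    rw [EuclideanSpace.norm_sq_eq, Fin.sum_univ_castSucc, U_last]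
    simp only [U_cast]
    rw [← EuclideanSpace.norm_sq_eq, Real.norm_eq_abs, sq_abs, Real.sq_sqrt]
    · ring
    · have := norm_nonneg y
      nlinarith
  have h3 := norm_nonneg (U y)
  nlinarith

theorem U_continuous : Continuous U := by
  unfold U
  refine (PiLp.continuous_toLp 2 _).comp (continuous_pi fun i => ?_)
  refine Fin.lastCases ?_ (fun j => ?_) i
  · simp only [Fin.snoc_last]
    fun_prop
  · simp only [Fin.snoc_castSucc]
    fun_prop

theorem U_neg (y : E 3) (hy : ‖y‖ = 1) : U (-y) = - U y := by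
  ext i
  refine Fin.lastCases ?_ (fun j => ?_) i
  · rw [PiLp.neg_apply, U_last, U_last, norm_neg, hy]
    simp
  · rw [PiLp.neg_apply, U_cast, U_cast, PiLp.neg_apply]

/-- the scaling of the ball. -/
noncomputable def cl (t : ℝ) : ℝ := max 0 (min t 1)

theorem cl_nonneg (t : ℝ) : 0 ≤ cl t := le_max_left _ _

theorem cl_le (t : ℝ) : cl t ≤ 1 := max_le zero_le_one (min_le_right _ _)

theorem cl_continuous : Continuous cl := by
  unfold cl
  fun_prop

theorem cl_zero : cl 0 = 0 := by simp [cl]

theorem cl_one : cl 1 = 1 := by simp [cl]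

theorem scale_norm (t : ℝ) (y : D) : ‖cl t • (y : E 3)‖ ≤ 1 := by
  have hy : ‖(y : E 3)‖ ≤ 1 := mem_closedBall_zero_iff.1 y.2
  rw [norm_smul, Real.norm_eq_abs, abs_of_nonneg (cl_nonneg t)]
  exact mul_le_one₀ (cl_le t) (norm_nonneg _) hy

/-- no exchanged families of rank two. -/
theorem no_sym_proj (P : S → Matrix (Fin 4) (Fin 4) ℂ) (hc : Continuous P)
    (hid : ∀ x, P x * P x = P x) (hsym : ∀ x, (P x).transpose = P x)
    (hodd : ∀ x y : S, (y : E 4) = - x → P y = 1 - P x) : False := by
  have hrk4 : 1 < Module.rank ℝ (E 4) := by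
    rw [← Module.finrank_eq_rank, finrank_euclideanSpace_fin]
    exact_mod_cast (by norm_num : 1 < 4)
  have hrk3 : 1 < Module.rank ℝ (E 3) := by
    rw [← Module.finrank_eq_rank, finrank_euclideanSpace_fin]
    exact_mod_cast (by norm_num : 1 < 3)
  have : PreconnectedSpace S := Subtype.preconnectedSpace (isPreconnected_sphere hrk4 _ _)
  have : PreconnectedSpace (Metric.sphere (0 : E 3) 1) :=
    Subtype.preconnectedSpace (isPreconnected_sphere hrk3 _ _)
  have : PreconnectedSpace D := Subtype.preconnectedSpace (convex_closedBall _ _).isPreconnected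
  have hnegm : ∀ x : S, -(x : E 4) ∈ Metric.sphere (0 : E 4) 1 := by
    intro x
    have := x.2
    simp only [mem_sphere_zero_iff_norm] at this ⊢
    rw [norm_neg, this]
  -- the trace is two
  have htr2 : ∀ x, (P x).trace = 2 := by
    intro x
    have hf : Continuous fun x => ((P x).trace).re := Complex.continuous_re.comp hc.matrix_trace
    have hsum : ∀ y : S, ((P y).trace).re + ((P ⟨-(y : E 4), hnegm y⟩).trace).re = 4 := by
      intro y
      rw [hodd y ⟨-(y : E 4), hnegm y⟩ rfl, Matrix.trace_sub, Matrix.trace_one]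
      simp
    have hnat : ∀ y : S, ∃ k : ℕ, ((P y).trace).re = k ∧ (P y).trace = k := by
      intro y
      obtain ⟨k, hk⟩ := trace_idem (P y) (hid y)
      exact ⟨k, by rw [hk]; simp, hk⟩
    have hle : ∀ y : S, ¬ ((P y).trace).re < 2 := by
      intro y hy
      obtain ⟨k, hk, -⟩ := hnat y
      have h2 := hsum y
      obtain ⟨z, hz⟩ := mem_range_of_exists_le_of_exists_ge hf (c := (3 / 2 : ℝ))
        ⟨y, by
          rw [hk] at hy ⊢
          have : k < 2 := by exact_mod_cast hy
          have h3 : (k : ℝ) ≤ 1 := by exact_mod_cast (by omega : k ≤ 1)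
          linarith⟩
        ⟨⟨-(y : E 4), hnegm y⟩, by linarith⟩
      obtain ⟨l, hl, -⟩ := hnat z
      simp only at hz
      rw [hl] at hz
      have h4 : (2 * l : ℝ) = 3 := by linarith
      have h5 : 2 * l = 3 := by exact_mod_cast h4
      omega
    obtain ⟨k, hk, hk'⟩ := hnat x
    have h1 := not_lt.1 (hle x)
    have h2 := not_lt.1 (hle ⟨-(x : E 4), hnegm x⟩)
    have h3 := hsum x
    have h4 : (k : ℝ) = 2 := by linarith
    have h5 : k = 2 := by exact_mod_cast h4
    rw [hk', h5]
    norm_num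
  -- the rank one matrices
  obtain ⟨N, hN⟩ : ∃ N : S → Matrix (Fin 3) (Fin 3) ℂ,
      N = fun x => NN ((2 : ℂ) • P x - 1) := ⟨_, rfl⟩
  have hNc : Continuous N := by
    have h1 : Continuous fun x => (2 : ℂ) • P x - 1 := (hc.const_smul (2 : ℂ)).sub continuous_const
    rw [hN]
    exact NN_continuous.comp h1
  have hNf : ∀ x, Rk (N x) ∧ ∑ i, ∑ j, N x i j * N x i j = 1 := by
    intro x
    rw [hN]
    refine NN_facts _ ?_ ?_ ?_
    · rw [Matrix.transpose_sub, Matrix.transpose_smul, hsym, Matrix.transpose_one]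
    · have e : ((2 : ℂ) • P x - 1) * ((2 : ℂ) • P x - 1) =
          (4 : ℂ) • (P x * P x) - (4 : ℂ) • P x + 1 := by
        rw [sub_mul, mul_sub, mul_sub, Matrix.smul_mul, Matrix.mul_smul, smul_smul, mul_one,
          one_mul, mul_one]
        have : (2 : ℂ) * 2 = 4 := by norm_num
        rw [this]
        have h4 : (4 : ℂ) • P x = (2 : ℂ) • P x + (2 : ℂ) • P x := by
          rw [← add_smul]; norm_num
        rw [h4]
        abel
      rw [e, hid, sub_self, zero_add]
    · rw [Matrix.trace_sub, Matrix.trace_smul, htr2, Matrix.trace_one]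
      simp
      norm_num
  have hNo : ∀ x y : S, (y : E 4) = - x → N y = - N x := by
    intro x y h
    rw [hN]
    simp only
    rw [hodd x y h, ← NN_neg]
    congr 1
    rw [smul_sub, two_smul ℂ (1 : Matrix (Fin 4) (Fin 4) ℂ)]
    abel
  -- the point of the sphere
  obtain ⟨V, hV⟩ : ∃ V : ℝ → D → S, ∀ t y, (V t y : E 4) = U (cl t • (y : E 3)) :=
    ⟨fun t y => ⟨U (cl t • (y : E 3)), mem_sphere_zero_iff_norm.2 (U_norm _ (scale_norm t y))⟩,
      fun _ _ => rfl⟩
  have hVc : Continuous fun p : ℝ × D => V p.1 p.2 := by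
    rw [continuous_induced_rng]
    have : (Subtype.val ∘ fun p : ℝ × D => V p.1 p.2) =
        fun p : ℝ × D => U (cl p.1 • (p.2 : E 3)) := by
      funext p
      exact hV _ _
    rw [this]
    exact U_continuous.comp ((cl_continuous.comp continuous_fst).smul
      (continuous_subtype_val.comp continuous_snd))
  have hV0 : ∀ y y' : D, V 0 y = V 0 y' := by
    intro y y'
    apply Subtype.ext
    rw [hV, hV, cl_zero, zero_smul, zero_smul]
  obtain ⟨y₀⟩ : Nonempty D := ⟨⟨0, by simp⟩⟩
  have : CompactSpace D := isCompact_iff_compactSpace.1 (isCompact_closedBall _ _)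
  -- the two lifts
  obtain ⟨α, hαc, hα⟩ := Lift.exists_lift (fun t y => RR (N (V t y)))
    (RR_continuous.comp (hNc.comp hVc)) (fun t y i j => RR_sym _ i j)
    (fun t y => RR_rk _ (hNf _).1) (fun t y => (hNf (V t y)).2) (RR (N (V 0 y₀)))
    (fun y => by simp only [hV0 y y₀])
  obtain ⟨β, hβc, hβ⟩ := Lift.exists_lift (fun t y => RR (N (V t y)).transpose)
    (RR_continuous.comp (hNc.comp hVc).matrix_transpose) (fun t y i j => RR_sym _ i j)
    (fun t y => RR_rk _ (Rk.transpose (hNf _).1)) (fun t y => by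
      have := (hNf (V t y)).2
      rw [Finset.sum_comm] at this
      exact this) (RR (N (V 0 y₀)).transpose)
    (fun y => by simp only [hV0 y y₀])
  have hα1 : ∀ y, ∑ i, α y i * α y i = 1 := by
    intro y
    simp only [hα]
    exact (hNf (V 1 y)).2
  have hβ1 : ∀ y, ∑ i, β y i * β y i = 1 := by
    intro y
    simp only [hβ]
    have := (hNf (V 1 y)).2
    rw [Finset.sum_comm] at this
    exact this
  have hαe : ∀ i, Continuous fun y => α y i := fun i => (continuous_apply i).comp hαc
  have hβe : ∀ i, Continuous fun y => β y i := fun i => (continuous_apply i).comp hβc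
  have hV1c : Continuous fun y : D => V 1 y := hVc.comp (continuous_const.prodMk continuous_id)
  have hNe : ∀ i j, Continuous fun y : D => N (V 1 y) i j := fun i j =>
    (hNc.comp hV1c).matrix_elem i j
  have hlam := fun y => lift_two (N (V 1 y)) (hNf _).1 (hNf _).2 (α y) (β y)
    (fun i j => hα y i j) (fun i j => hβ y i j)
  have hlc : (∀ y, ∑ i, ∑ j, α y i * N (V 1 y) i j * β y j = 1) ∨
      (∀ y, ∑ i, ∑ j, α y i * N (V 1 y) i j * β y j = -1) := by
    refine const_sign _ ?_ (fun y => (hlam y).1)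
    refine continuous_finsetSum _ fun i _ => continuous_finsetSum _ fun j _ => ?_
    exact ((hαe i).mul (hNe i j)).mul (hβe j)
  -- boundary points
  obtain ⟨ι, hι⟩ : ∃ ι : Metric.sphere (0 : E 3) 1 → D, ∀ y, (ι y : E 3) = y :=
    ⟨fun y => ⟨y, by
      have := y.2
      simp only [mem_sphere_zero_iff_norm] at this
      simp [this]⟩, fun _ => rfl⟩
  have hιc : Continuous ι := by
    rw [continuous_induced_rng]
    have : (Subtype.val ∘ ι) = fun y : Metric.sphere (0 : E 3) 1 => (y : E 3) := by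
      funext y; exact hι y
    rw [this]
    exact continuous_subtype_val
  obtain ⟨ng, hng⟩ : ∃ ng : Metric.sphere (0 : E 3) 1 → Metric.sphere (0 : E 3) 1,
      ∀ y, (ng y : E 3) = - y :=
    ⟨fun y => ⟨-y, by
      have := y.2
      simp only [mem_sphere_zero_iff_norm] at this ⊢
      rw [norm_neg, this]⟩, fun _ => rfl⟩
  have hngc : Continuous ng := by
    rw [continuous_induced_rng]
    have : (Subtype.val ∘ ng) = fun y : Metric.sphere (0 : E 3) 1 => -(y : E 3) := by
      funext y; exact hng y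
    rw [this]
    exact continuous_subtype_val.neg
  have hbd : ∀ y : Metric.sphere (0 : E 3) 1, N (V 1 (ι (ng y))) = - N (V 1 (ι y)) := by
    intro y
    apply hNo
    rw [hV, hV, cl_one, one_smul, one_smul, hι, hι, hng]
    exact U_neg _ (by simpa using y.2)
  have hsa := fun y => sign_facts (α (ι y)) (α (ι (ng y))) (hα1 _) (fun i j => by
    rw [hα, hα, hbd, RR_neg])
  have hsb := fun y => sign_facts (β (ι y)) (β (ι (ng y))) (hβ1 _) (fun i j => by
    rw [hβ, hβ, hbd, Matrix.transpose_neg, RR_neg])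
  have hca : (∀ y, ∑ i, α (ι (ng y)) i * α (ι y) i = 1) ∨
      (∀ y, ∑ i, α (ι (ng y)) i * α (ι y) i = -1) := by
    refine const_sign _ ?_ (fun y => (hsa y).1)
    refine continuous_finsetSum _ fun i _ => ?_
    exact ((hαe i).comp (hιc.comp hngc)).mul ((hαe i).comp hιc)
  have hcb : (∀ y, ∑ i, β (ι (ng y)) i * β (ι y) i = 1) ∨
      (∀ y, ∑ i, β (ι (ng y)) i * β (ι y) i = -1) := by
    refine const_sign _ ?_ (fun y => (hsb y).1)
    refine continuous_finsetSum _ fun i _ => ?_
    exact ((hβe i).comp (hιc.comp hngc)).mul ((hβe i).comp hιc)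
  have hsph : ∀ (y : D) (hy : ‖(y : E 3)‖ = 1), y = ι ⟨y, by simpa using hy⟩ := by
    intro y hy
    apply Subtype.ext
    rw [hι]
  have hsph' : ∀ (y y' : D) (hy : ‖(y : E 3)‖ = 1), (y' : E 3) = - y →
      y' = ι (ng ⟨y, by simpa using hy⟩) := by
    intro y y' hy h
    apply Subtype.ext
    rw [hι, hng, h]
  rcases hca with ha | ha
  · rcases hcb with hb | hb
    · -- both even: contradiction
      obtain ⟨e0⟩ : Nonempty (Metric.sphere (0 : E 3) 1) :=
        ⟨⟨EuclideanSpace.single 0 1, by simp⟩⟩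
      have e1 := (hlam (ι e0)).2
      have e2 := (hlam (ι (ng e0))).2
      have e3 := hbd e0
      have ea : α (ι (ng e0)) = α (ι e0) := by
        funext i
        rw [(hsa e0).2 i, ha, one_mul]
      have eb : β (ι (ng e0)) = β (ι e0) := by
        funext i
        rw [(hsb e0).2 i, hb, one_mul]
      have e4 : ∀ i j, N (V 1 (ι e0)) i j = 0 := by
        intro i j
        have e5 := e1 i j
        have e6 := e2 i j
        rw [e3, ea, eb] at e6
        rcases hlc with hl | hl
        · rw [hl] at e5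
          have e7 := hl (ι (ng e0))
          rw [e3, ea, eb] at e7
          rw [e7] at e6
          rw [Matrix.neg_apply] at e6
          linear_combination (1/2) * e5 - (1/2) * e6
        · rw [hl] at e5
          have e7 := hl (ι (ng e0))
          rw [e3, ea, eb] at e7
          rw [e7] at e6
          rw [Matrix.neg_apply] at e6
          linear_combination (1/2) * e5 - (1/2) * e6
      have e8 := (hNf (V 1 (ι e0))).2
      simp only [e4] at e8
      simp at e8
    · refine no_odd_vec β hβc hβ1 fun y y' hy h => ?_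
      have h1 := hsph y hy
      have h2 := hsph' y y' hy h
      rw [h2]
      conv_rhs => rw [h1]
      funext i
      rw [(hsb _).2 i, hb, Pi.neg_apply]
      ring
  · refine no_odd_vec α hαc hα1 fun y y' hy h => ?_
    have h1 := hsph y hy
    have h2 := hsph' y y' hy h
    rw [h2]
    conv_rhs => rw [h1]
    funext i
    rw [(hsa _).2 i, ha, Pi.neg_apply]
    ring

end Pool.Agent.H982R3.Proj
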