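import Mathlib
import Pool.Agent.Helper672.Lv.Fin
import Pool.Agent.H982R3.Proj

/-!
A real 5-dimensional space of symmetric complex `4 × 4` matrices contains a singular one.
-/

set_option autoImplicit false

namespace Pool.Agent.H982R3.Sing

open Pool.Agent.Helper672.Lv Pool.Agent.H982R3.Proj

/-- an invertible symmetric complex matrix is congruent to the identity. -/
theorem exists_congr {N : ℕ} (S : Matrix (Fin N) (Fin N) ℂ) (hs : S.transpose = S)
    (hd : S.det ≠ 0) : ∃ W : Matrix (Fin N) (Fin N) ℂ, W.det ≠ 0 ∧ W.transpose * S * W = 1 := by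
  have hsym : LinearMap.IsSymm (Matrix.toBilin' S) := by
    refine ⟨fun x y => ?_⟩
    rw [RingHom.id_apply, Matrix.toBilin'_apply', Matrix.toBilin'_apply']
    rw [dotProduct_comm x, Matrix.dotProduct_mulVec y, ← Matrix.mulVec_transpose, hs]
  let _ : Invertible (2 : ℂ) := invertibleOfNonzero two_ne_zero
  obtain ⟨v0, hv0⟩ := LinearMap.BilinForm.exists_orthogonal_basis hsym
  have hfr : Module.finrank ℂ (Fin N → ℂ) = N := by simp
  obtain ⟨v, hv⟩ : ∃ v : Module.Basis (Fin N) ℂ (Fin N → ℂ), (Matrix.toBilin' S).IsOrthoᵢ v := by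
    refine ⟨v0.reindex (finCongr hfr), ?_⟩
    intro i j hij
    simp only [Function.onFun, Module.Basis.reindex_apply]
    exact hv0 (fun h => hij ((finCongr hfr).symm.injective h))
  obtain ⟨V, hV⟩ : ∃ V : Matrix (Fin N) (Fin N) ℂ, V = Matrix.of (fun i j => v j i) := ⟨_, rfl⟩
  have hVd : V.det ≠ 0 := by
    have h1 : IsUnit (V.transpose) := by
      have := v.linearIndependent
      rw [← Matrix.linearIndependent_rows_iff_isUnit]
      have e : V.transpose.row = v := by
        funext j i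
        rw [hV]
        rfl
      rw [e]
      exact this
    have h2 := (Matrix.isUnit_iff_isUnit_det _).1 h1
    rw [Matrix.det_transpose] at h2
    exact h2.ne_zero
  have hVS : ∀ i j, (V.transpose * S * V) i j = Matrix.toBilin' S (v i) (v j) := by
    intro i j
    rw [Matrix.toBilin'_apply', Matrix.mul_assoc]
    simp only [Matrix.mul_apply, Matrix.transpose_apply, dotProduct, Matrix.mulVec, hV, Matrix.of_apply]
  obtain ⟨d, hdd⟩ : ∃ d : Fin N → ℂ, d = fun i => Matrix.toBilin' S (v i) (v i) := ⟨_, rfl⟩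
  have hdiag : V.transpose * S * V = Matrix.diagonal d := by
    ext i j
    rw [hVS]
    by_cases hij : i = j
    · subst hij
      rw [Matrix.diagonal_apply_eq, hdd]
    · rw [Matrix.diagonal_apply_ne _ hij]
      exact hv hij
  have hd0 : ∀ i, d i ≠ 0 := by
    have h1 := congrArg Matrix.det hdiag
    rw [Matrix.det_mul, Matrix.det_mul, Matrix.det_transpose, Matrix.det_diagonal] at h1
    have h2 : ∏ i, d i ≠ 0 := by
      rw [← h1]
      exact mul_ne_zero (mul_ne_zero hVd hd) hVd
    intro i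
    exact (Finset.prod_ne_zero_iff.1 h2) i (Finset.mem_univ i)
  obtain ⟨s, hs1⟩ : ∃ s : Fin N → ℂ, s = fun i => (Lift.sq (d i))⁻¹ := ⟨_, rfl⟩
  have hs0 : ∀ i, s i ≠ 0 := by
    intro i
    rw [hs1]
    exact inv_ne_zero (Lift.sq_ne _)
  refine ⟨V * Matrix.diagonal s, ?_, ?_⟩
  · rw [Matrix.det_mul, Matrix.det_diagonal]
    exact mul_ne_zero hVd (Finset.prod_ne_zero_iff.2 fun i _ => hs0 i)
  · rw [Matrix.transpose_mul, Matrix.diagonal_transpose]
    have e : Matrix.diagonal s * V.transpose * S * (V * Matrix.diagonal s) =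
        Matrix.diagonal s * (V.transpose * S * V) * Matrix.diagonal s := by
      simp only [Matrix.mul_assoc]
    rw [e, hdiag, Matrix.diagonal_mul_diagonal, Matrix.diagonal_mul_diagonal]
    rw [← Matrix.diagonal_one]
    congr 1
    funext i
    have h1 := Lift.sq_mul _ (hd0 i)
    have h2 := Lift.sq_ne (d i)
    rw [hs1]
    simp only
    field_simp
    rw [pow_two]
    exact h1.symm

/-- a real 5-dimensional space of symmetric complex `4 × 4` matrices contains a singular one. -/
theorem exists_singular_sym (S : Fin 5 → Matrix (Fin 4) (Fin 4) ℂ)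
    (hsym : ∀ i, (S i).transpose = S i) :
    ∃ w : Fin 5 → ℝ, w ≠ 0 ∧ (∑ i, (w i : ℂ) • S i).det = 0 := by
  by_contra hcon
  push Not at hcon
  have hS4 : (S 4).det ≠ 0 := by
    have := hcon (Pi.single 4 1) (by
      intro h
      have := congrFun h 4
      simp at this)
    have e : ∑ i, (((Pi.single 4 1 : Fin 5 → ℝ) i : ℝ) : ℂ) • S i = S 4 := by
      rw [Finset.sum_eq_single 4]
      · simp
      · intro b _ hb
        simp [Pi.single_apply, hb]
      · simp
    rwa [e] at this
  obtain ⟨W, hWd, hW⟩ := exists_congr (S 4) (hsym 4) hS4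
  obtain ⟨R, hR⟩ : ∃ R : E 4 → Matrix (Fin 4) (Fin 4) ℂ, R = fun x =>
      ∑ i : Fin 4, ((x i : ℝ) : ℂ) • (W.transpose * S i.castSucc * W) := ⟨_, rfl⟩
  have hRc : Continuous R := by
    rw [hR]
    refine continuous_finsetSum _ fun i _ => ?_
    have : Continuous fun x : E 4 => ((x i : ℝ) : ℂ) := by fun_prop
    exact this.smul continuous_const
  have hRneg : ∀ x, R (-x) = - R x := by
    intro x
    simp only [hR]
    rw [← Finset.sum_neg_distrib]
    refine Finset.sum_congr rfl fun i _ => ?_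
    simp
  have hRs : ∀ x, (R x).transpose = R x := by
    intro x
    simp only [hR]
    rw [Matrix.transpose_sum]
    refine Finset.sum_congr rfl fun i _ => ?_
    rw [Matrix.transpose_smul, Matrix.transpose_mul, Matrix.transpose_mul, hsym,
      Matrix.transpose_transpose, Matrix.mul_assoc]
  have hno : ∀ x : E 4, ‖x‖ = 1 → ∀ t : ℝ,
      (R x - (t : ℂ) • (1 : Matrix (Fin 4) (Fin 4) ℂ)).det ≠ 0 := by
    intro x hx t h
    have h1 := hcon (Fin.snoc (α := fun _ => ℝ) (fun i => x i) (-t)) (by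
      intro h0
      have h2 : x = 0 := by
        ext i
        have := congrFun h0 i.castSucc
        simpa using this
      rw [h2, norm_zero] at hx
      exact zero_ne_one hx)
    apply h1
    have e : W.transpose * (∑ i, (((Fin.snoc (α := fun _ => ℝ) (fun i => x i) (-t) :
        Fin 5 → ℝ) i : ℝ) : ℂ) • S i) * W
        = R x - (t : ℂ) • (1 : Matrix (Fin 4) (Fin 4) ℂ) := by
      rw [Fin.sum_univ_castSucc, mul_add, add_mul, hR, Finset.mul_sum, Finset.sum_mul]
      simp only [Fin.snoc_castSucc, Fin.snoc_last, Matrix.mul_smul, Matrix.smul_mul]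
      have : (Fin.last 4) = 4 := rfl
      rw [this, hW]
      push_cast
      rw [neg_smul, sub_eq_add_neg]
    have e2 := congrArg Matrix.det e
    rw [h, Matrix.det_mul, Matrix.det_mul, Matrix.det_transpose] at e2
    rcases mul_eq_zero.1 e2 with h3 | h3
    · rcases mul_eq_zero.1 h3 with h4 | h4
      · exact absurd h4 hWd
      · exact h4
    · exact absurd h3 hWd
  have hc4 : CompactSpace (Metric.sphere (0 : E 4) 1) :=
    isCompact_iff_compactSpace.1 (isCompact_sphere _ _)
  obtain ⟨P, hPc, hPid, hPs, hPneg⟩ := exists_family_proj_sym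
    (fun x : Metric.sphere (0 : E 4) 1 => R x)
    (hRc.comp continuous_subtype_val)
    (fun x t => hno x (mem_sphere_zero_iff_norm.1 x.2) t)
    (fun x => hRs x)
  refine no_sym_proj P hPc hPid hPs fun x y hxy => hPneg x y ?_
  rw [hxy, hRneg]

theorem cform_symm {m : ℕ} (q : QuadraticForm ℝ (Fin m → ℂ))
    (C : (Fin m → ℂ) →ₗ[ℂ] (Fin m → ℂ) →ₗ[ℂ] ℂ)
    (hC : ∀ z z', (C z z').re = QuadraticMap.polar q z z') (z z' : Fin m → ℂ) :
    C z z' = C z' z := by
  apply Complex.ext
  · rw [hC, hC, QuadraticMap.polar_comm]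
  · have h1 : (C (Complex.I • z) z').re = (C z' (Complex.I • z)).re := by
      rw [hC, hC, QuadraticMap.polar_comm]
    rw [map_smul, map_smul, LinearMap.smul_apply] at h1
    simp only [smul_eq_mul, Complex.mul_re, Complex.I_re, Complex.I_im] at h1
    linarith

/-- a linear combination of five forms on `ℂ⁴` has a radical. -/
theorem exists_radical (q : Fin 5 → QuadraticForm ℝ (Fin 4 → ℂ))
    (hq : ∀ j z, q j (Complex.I • z) = - q j z) :
    ∃ w : EuclideanSpace ℝ (Fin 5), ‖w‖ = 1 ∧ ∃ u : Fin 4 → ℂ, u ≠ 0 ∧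
      ∀ z, ∑ j, w j * q j (u + z) = ∑ j, w j * q j z := by
  classical
  choose C hC using fun j => J27266.cform_aux (q j) (hq j)
  have hCs := fun j => cform_symm (q j) (C j) (hC j)
  obtain ⟨w, hw, hdet⟩ := exists_singular_sym (fun i => LinearMap.toMatrix₂' ℂ (C i)) (fun i => by
    ext a b
    rw [Matrix.transpose_apply, LinearMap.toMatrix₂'_apply, LinearMap.toMatrix₂'_apply, hCs])
  obtain ⟨u, hu, hMu⟩ := Matrix.exists_mulVec_eq_zero_iff.2 hdet
  have hB : ∀ z, ∑ i, w i * QuadraticMap.polar (q i) z u = 0 := by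
    intro z
    have h1 : (∑ i, (w i : ℂ) • C i) z u = 0 := by
      have h2 : (∑ i, (w i : ℂ) • C i) =
          Matrix.toLinearMap₂' ℂ (∑ i, (w i : ℂ) • LinearMap.toMatrix₂' ℂ (C i)) := by
        rw [map_sum]
        refine Finset.sum_congr rfl fun i _ => ?_
        rw [map_smul, Matrix.toLinearMap₂'_toMatrix']
      rw [h2, Matrix.toLinearMap₂'_apply', hMu, dotProduct_zero]
    have h3 := congrArg Complex.re h1
    simp only [LinearMap.sum_apply, LinearMap.smul_apply, Complex.re_sum, smul_eq_mul,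
      Complex.re_ofReal_mul, hC, Complex.zero_re] at h3
    exact h3
  obtain ⟨w0, hw0a⟩ : ∃ w0 : EuclideanSpace ℝ (Fin 5), ∀ i, w0 i = w i :=
    ⟨WithLp.toLp 2 w, fun _ => rfl⟩
  have hw0 : w0 ≠ 0 := by
    intro h
    apply hw
    ext i
    rw [← hw0a i, h]
    rfl
  have hn : ‖w0‖ ≠ 0 := norm_ne_zero_iff.2 hw0
  have hB0 : ∀ z, ∑ j, w0 j * QuadraticMap.polar (q j) z u = 0 := by
    intro z
    rw [← hB z]
    exact Finset.sum_congr rfl fun i _ => by rw [hw0a]
  refine ⟨‖w0‖⁻¹ • w0, ?_, u, hu, ?_⟩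
  · rw [norm_smul, norm_inv, norm_norm, inv_mul_cancel₀ hn]
  · intro z
    have hexp : ∀ j, q j (u + z) = q j u + q j z + QuadraticMap.polar (q j) z u := by
      intro j
      rw [QuadraticMap.polar_comm]
      unfold QuadraticMap.polar
      ring
    have hqu : ∀ j, q j u = QuadraticMap.polar (q j) u u / 2 := by
      intro j
      rw [QuadraticMap.polar_self]
      simp
    have e1 : ∑ j, (‖w0‖⁻¹ • w0) j * q j (u + z) - ∑ j, (‖w0‖⁻¹ • w0) j * q j z =
        ‖w0‖⁻¹ * (1 / 2 * ∑ j, w0 j * QuadraticMap.polar (q j) u u +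
          ∑ j, w0 j * QuadraticMap.polar (q j) z u) := by
      rw [← Finset.sum_sub_distrib, Finset.mul_sum, ← Finset.sum_add_distrib, Finset.mul_sum]
      refine Finset.sum_congr rfl fun j _ => ?_
      rw [hexp, hqu]
      simp only [PiLp.smul_apply, smul_eq_mul]
      ring
    rw [hB0, hB0] at e1
    have e2 : ‖w0‖⁻¹ * (1 / 2 * (0:ℝ) + 0) = 0 := by ring
    rw [e2] at e1
    linarith

/-- no five forms on `ℂ⁴`. -/
theorem no_forms4 (q : Fin 5 → QuadraticForm ℝ (Fin 4 → ℂ))
    (hq : ∀ j z, q j (Complex.I • z) = - q j z) (hfree : ∀ z, z ≠ 0 → ∃ j, q j z ≠ 0) :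
    False := by
  obtain ⟨w₀, hw₀, u, hu, hker⟩ := exists_radical q hq
  have hfin : Module.finrank ℝ (E (2 * 4)) = Module.finrank ℝ (Fin 4 → ℂ) := by
    rw [finrank_euclideanSpace_fin, Module.finrank_pi_fintype]
    simp [Complex.finrank_real_complex]
  obtain ⟨Φ₀⟩ : Nonempty (E (2 * 4) ≃ₗ[ℝ] (Fin 4 → ℂ)) := ⟨LinearEquiv.ofFinrankEq _ _ hfin⟩
  obtain ⟨O, N, lam, hmN, hN, hp, hn, hf, hr⟩ := spec_bound q hq Φ₀ w₀
  have hN1 := hr u hu hker
  set Φ := O.toLinearEquiv.trans Φ₀ with hΦ
  obtain ⟨Q, hQ⟩ := exists_Q q Φ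
  have hin : ∀ (w : E (4 + 1)) (z : E (2 * 4)), inner ℝ w (Q (v (2 * 4) z)) = FF q Φ w z := by
    intro w z
    rw [FF_apply, PiLp.inner_apply]
    refine Finset.sum_congr rfl fun j _ => ?_
    rw [hQ]
    simp [mul_comm]
  refine T2 (m := 4) (M := 2 * 4) (by omega) (by omega) Q ?_ ?_ w₀ ⟨hw₀, ?_⟩ ?_
  · intro z hz h0
    have hz0 : z ≠ 0 := by
      rintro rfl
      have := hz.1
      rw [norm_zero] at this
      exact zero_ne_one this
    obtain ⟨j, hj⟩ := hfree (Φ z) (by
      rw [ne_eq, LinearEquiv.map_eq_zero_iff]; exact hz0)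
    apply hj
    rw [← hQ, h0]
    rfl
  · intro w hw
    obtain ⟨O', N', lam', h1, h2, h3, h4, h5, -⟩ := spec_bound q hq Φ w
    refine ⟨O', N', lam', h1, h2, h3, h4, fun z => ?_⟩
    rw [hin, h5]
  · intro i hi
    exact absurd i.2 (by omega)
  · intro z hz
    rw [hin]
    have : FF q Φ w₀ z = FF q Φ₀ w₀ (O z) := by
      rw [FF_apply, FF_apply]
      rfl
    rw [this, hf]
    refine Finset.sum_nonneg fun i _ => ?_
    rcases Nat.lt_or_ge i.val (4 + 1) with h | h
    · exact mul_nonneg (hp i (by omega)) (sq_nonneg _)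
    · rw [hz.2 i h]; simp

end Pool.Agent.H982R3.Sing
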